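import Mathlib
import Pool.Agent.H86.CMLib.W528.Odd.Stms2

/-!
# Project OT: a symplectic operator commuting with `X`, `X ^ 2 = 1 / 4`, has even rank
-/

set_option autoImplicit false

namespace Pool.Agent.W125.OT.EvenRk

open Module

/-- an operator and its adjoint have the same rank -/
theorem rank_adj {K V : Type} [Field K] [AddCommGroup V] [Module K V] [FiniteDimensional K V]
    (ω : V →ₗ[K] V →ₗ[K] K) (hω : ∀ u, (∀ v, ω u v = 0) → u = 0) (A B : Module.End K V)
    (h : ∀ u v, ω (A u) v = ω u (B v)) :
    finrank K (LinearMap.range A) = finrank K (LinearMap.range B) := by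
  have hinj : Function.Injective ω := by
    rw [injective_iff_map_eq_zero]
    intro u hu
    exact hω u (fun v => by rw [hu]; rfl)
  have hd : finrank K V = finrank K (Module.Dual K V) := Subspace.dual_finrank_eq.symm
  let e : V ≃ₗ[K] Module.Dual K V := LinearEquiv.ofInjectiveOfFinrankEq ω hinj hd
  have he : ∀ u v, e u v = ω u v := fun u v => rfl
  have h1 : (e : V →ₗ[K] Module.Dual K V) ∘ₗ A = (LinearMap.dualMap B) ∘ₗ (e : V →ₗ[K] Module.Dual K V) := by
    ext u v
    exact h u v
  have h2 : finrank K (LinearMap.range ((e : V →ₗ[K] Module.Dual K V) ∘ₗ A)) =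
      finrank K (LinearMap.range A) := by
    rw [LinearMap.range_comp]
    exact LinearEquiv.finrank_map_eq e _
  have h3 : LinearMap.range ((LinearMap.dualMap B) ∘ₗ (e : V →ₗ[K] Module.Dual K V)) =
      LinearMap.range (LinearMap.dualMap B) := by
    rw [LinearMap.range_comp, LinearEquiv.range, Submodule.map_top]
  rw [← h2, h1, h3, LinearMap.finrank_range_dualMap_eq_finrank_range]

theorem main : Pool.Agent.W528.Odd.EvenRk := by
  intro K _ _ V _ _ _ ω _ hnd N X hN hX hXX hXN
  set p : Module.End K V := X + (1 / 2 : K) • 1 with hp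
  have hNp : N * p = p * N := by
    rw [hp, mul_add, add_mul, hXN]
    congr 1
    rw [mul_smul_comm, smul_mul_assoc, mul_one, one_mul]
  have hpp : p * p = p := by
    ext u
    have h1 : X (X u) = (1 / 4 : K) • u := by
      rw [← Module.End.mul_apply, hXX, LinearMap.smul_apply, Module.End.one_apply]
    simp only [hp, Module.End.mul_apply, LinearMap.add_apply, LinearMap.smul_apply,
      Module.End.one_apply, map_add, map_smul, h1]
    module
  -- adjoint
  have hadj : ∀ u v, ω ((N * p) u) v = ω u ((-(N * (1 - p))) v) := by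
    intro u v
    have h1 : ω (N (p u)) v = - ω (p u) (N v) := eq_neg_of_add_eq_zero_left (hN _ _)
    have h2 : ∀ a b, ω (p a) b = ω a ((1 - p) b) := by
      intro a b
      have h3 : ω (X a) b = - ω a (X b) := eq_neg_of_add_eq_zero_left (hX _ _)
      simp only [hp, LinearMap.add_apply, LinearMap.smul_apply, Module.End.one_apply, map_add,
        map_smul, LinearMap.sub_apply, map_sub, h3, smul_eq_mul]
      ring
    have h4 : (N * (1 - p)) = (1 - p) * N := by
      rw [mul_sub, sub_mul, hNp, mul_one, one_mul]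
    rw [Module.End.mul_apply, h1, h2, h4, LinearMap.neg_apply, map_neg, Module.End.mul_apply]
  have hr1 := rank_adj ω hnd _ _ hadj
  have hr2 : LinearMap.range (-(N * (1 - p))) = LinearMap.range (N * (1 - p)) :=
    LinearMap.range_neg _
  rw [hr2] at hr1
  -- decomposition
  have hsup : LinearMap.range (N * p) ⊔ LinearMap.range (N * (1 - p)) = LinearMap.range N := by
    apply le_antisymm
    · apply sup_le
      · rintro _ ⟨u, rfl⟩
        exact ⟨p u, rfl⟩
      · rintro _ ⟨u, rfl⟩
        exact ⟨(1 - p) u, rfl⟩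
    · rintro _ ⟨u, rfl⟩
      have : N u = (N * p) u + (N * (1 - p)) u := by
        rw [← LinearMap.add_apply, ← mul_add, add_sub_cancel, mul_one]
      rw [this]
      exact Submodule.add_mem_sup ⟨u, rfl⟩ ⟨u, rfl⟩
  have hinf : LinearMap.range (N * p) ⊓ LinearMap.range (N * (1 - p)) = ⊥ := by
    rw [eq_bot_iff]
    rintro x ⟨⟨u, hu⟩, ⟨v, hv⟩⟩
    have h1 : p x = x := by
      rw [← hu, ← Module.End.mul_apply, ← mul_assoc, ← hNp, mul_assoc, hpp]
    have h2 : p x = 0 := by
      rw [← hv, ← Module.End.mul_apply, ← mul_assoc, ← hNp, mul_assoc, mul_sub, mul_one, hpp,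
        sub_self, mul_zero, LinearMap.zero_apply]
    rw [Submodule.mem_bot, ← h1, h2]
  have h3 := Submodule.finrank_sup_add_finrank_inf_eq (LinearMap.range (N * p))
    (LinearMap.range (N * (1 - p)))
  rw [hsup, hinf, finrank_bot, add_zero, hr1] at h3
  rw [h3]
  exact ⟨_, rfl⟩

end Pool.Agent.W125.OT.EvenRk
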