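import Mathlib
import Pool.Agent.H86.CMLib.W528.Odd.Stms2

/-!
# Project OT: strong irreducibility from the elements `X`, `X ^ 2 = 1 / 4`
-/

set_option autoImplicit false

namespace Pool.Agent.W125.OT.SIrrT

open Module

theorem pow_id {R : Type} [Ring R] {p : R} (hp : p * p = p) (M : ℕ) :
    (1 + p) ^ M = 1 + ((2 ^ M - 1 : ℤ) : R) * p := by
  induction M with
  | zero => simp
  | succ M ih =>
    rw [pow_succ, ih]
    have h1 : (1 + ((2 ^ M - 1 : ℤ) : R) * p) * (1 + p) =
        1 + p + ((2 ^ M - 1 : ℤ) : R) * p + ((2 ^ M - 1 : ℤ) : R) * (p * p) := by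
      noncomm_ring
    rw [h1, hp, pow_succ]
    push_cast
    noncomm_ring

theorem main : Pool.Agent.W528.Odd.SIrrT := by
  intro K _ _ V _ _ _ G _ r 𝔮 hq hirr Δ hΔ W hW
  apply hirr
  intro X hX hXX u hu
  obtain ⟨g, hg⟩ := hq X hX hXX
  obtain ⟨M, hM, -, hgM⟩ := Subgroup.exists_pow_mem_of_index_ne_zero hΔ.index_ne_zero g
  set p : Module.End K V := X + (1 / 2 : K) • 1 with hp
  have hpp : p * p = p := by
    ext u
    have h1 : X (X u) = (1 / 4 : K) • u := by
      rw [← Module.End.mul_apply, hXX, LinearMap.smul_apply, Module.End.one_apply]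
    simp only [hp, Module.End.mul_apply, LinearMap.add_apply, LinearMap.smul_apply,
      Module.End.one_apply, map_add, map_smul, h1]
    module
  have hgp : r g = 1 + p := by
    rw [hg, hp]
    have : (3 / 2 : K) = 1 + 1 / 2 := by norm_num
    rw [this, add_smul, one_smul]
    abel
  have h1 := hW _ hgM u hu
  rw [map_pow, hgp, pow_id hpp] at h1
  have h2 : (1 + ((2 ^ M - 1 : ℤ) : Module.End K V) * p) u = u + ((2 ^ M - 1 : ℤ) : K) • p u := by
    rw [LinearMap.add_apply, Module.End.one_apply, Module.End.mul_apply,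
      Module.End.intCast_apply, Int.cast_smul_eq_zsmul]
  rw [h2] at h1
  have h3 : ((2 ^ M - 1 : ℤ) : K) • p u ∈ W := by
    have := W.sub_mem h1 hu
    rwa [add_sub_cancel_left] at this
  have hne : ((2 ^ M - 1 : ℤ) : K) ≠ 0 := by
    have h4 : (2 : ℤ) ^ 1 ≤ 2 ^ M := pow_le_pow_right₀ (by norm_num) hM
    have h5 : (2 ^ M - 1 : ℤ) ≠ 0 := by omega
    exact_mod_cast h5
  have h4 : p u ∈ W := (W.smul_mem_iff hne).mp h3
  have h5 : X u = p u - (1 / 2 : K) • u := by
    rw [hp, LinearMap.add_apply, LinearMap.smul_apply, Module.End.one_apply, add_sub_cancel_right]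
  rw [h5]
  exact W.sub_mem h4 (W.smul_mem _ hu)

end Pool.Agent.W125.OT.SIrrT
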